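import Mathlib

set_option autoImplicit false
set_option maxSynthPendingDepth 6

/-!
# The quotient space `ℓ_∞ / c₀`
-/

namespace Pool.Agent.H916R3.CH

open Filter Topology
open scoped ENNReal

/-- The Banach space of bounded real sequences. -/
abbrev Linf : Type := lp (fun _ : ℕ => ℝ) ∞

/-- The closed subspace of the bounded sequences which tend to `0`. -/
noncomputable def c0sub : Submodule ℝ Linf where
  carrier := {f | Tendsto (fun n => f n) atTop (𝓝 0)}
  add_mem' := by
    intro f g hf hg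
    have h := Tendsto.add hf hg
    simpa using h
  zero_mem' := by
    show Tendsto (fun n => (0 : Linf) n) atTop (𝓝 0)
    simp
  smul_mem' := by
    intro c f hf
    have h := Tendsto.const_mul c hf
    simpa using h

theorem mem_c0sub {f : Linf} : f ∈ c0sub ↔ Tendsto (fun n => f n) atTop (𝓝 0) := Iff.rfl

theorem abs_apply_le (f : Linf) (i : ℕ) : |f i| ≤ ‖f‖ := by
  have := lp.norm_apply_le_norm (p := ∞) ENNReal.top_ne_zero f i
  simpa using this

instance isClosed_c0sub : IsClosed (c0sub : Set Linf) := by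
  apply IsSeqClosed.isClosed
  intro x f hx hf
  show Tendsto (fun n => f n) atTop (𝓝 0)
  rw [Metric.tendsto_atTop]
  intro ε hε
  rw [Metric.tendsto_atTop] at hf
  obtain ⟨N, hN⟩ := hf (ε / 2) (by positivity)
  have h1 := hN N le_rfl
  have h2 : Tendsto (fun n => (x N) n) atTop (𝓝 0) := hx N
  rw [Metric.tendsto_atTop] at h2
  obtain ⟨K, hK⟩ := h2 (ε / 2) (by positivity)
  refine ⟨K, fun n hn => ?_⟩
  have h3 := hK n hn
  have h4 := abs_apply_le (x N - f) n
  rw [dist_eq_norm] at h1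
  rw [Real.dist_eq, sub_zero] at h3 ⊢
  have h5 : (x N - f) n = (x N) n - f n := rfl
  rw [h5] at h4
  have h6 : |f n| ≤ |(x N) n| + |(x N) n - f n| := by
    have := abs_sub_abs_le_abs_sub (f n) ((x N) n)
    rw [abs_sub_comm] at this
    linarith
  linarith

/-- The Banach space `ℓ_∞ / c₀`. -/
abbrev Q : Type := Linf ⧸ c0sub

/-- The class of a bounded sequence. -/
noncomputable def mk : Linf →ₗ[ℝ] Q := c0sub.mkQ

/-- A bounded function as a member of `ℓ_∞`. -/
noncomputable def toL (a : ℕ → ℝ) (M : ℝ) (h : ∀ i, |a i| ≤ M) : Linf :=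
  ⟨a, memℓp_infty ⟨M, by rintro _ ⟨i, rfl⟩; simpa using h i⟩⟩

@[simp] theorem toL_apply (a : ℕ → ℝ) (M : ℝ) (h : ∀ i, |a i| ≤ M) (i : ℕ) :
    toL a M h i = a i := rfl

theorem mk_eq_mk {f g : Linf} : mk f = mk g ↔ Tendsto (fun n => f n - g n) atTop (𝓝 0) := by
  rw [← sub_eq_zero, ← map_sub, mk, Submodule.mkQ_apply, Submodule.Quotient.mk_eq_zero, mem_c0sub]
  rfl

theorem exists_rep (q : Q) : ∃ f : Linf, mk f = q := c0sub.mkQ_surjective q

theorem norm_mk_le {f : Linf} {M : ℝ} (hM : 0 ≤ M)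
    (h : ∀ ε > 0, ∀ᶠ i in atTop, |f i| ≤ M + ε) : ‖mk f‖ ≤ M := by
  refine le_of_forall_pos_le_add fun ε hε => ?_
  obtain ⟨N, hN⟩ := eventually_atTop.1 (h ε hε)
  have hb : ∀ i, |(fun i => if N ≤ i then f i else 0) i| ≤ M + ε := by
    intro i
    by_cases hi : N ≤ i
    · simpa [hi] using hN i hi
    · simp only [hi, if_false, abs_zero]
      positivity
  set g : Linf := toL (fun i => if N ≤ i then f i else 0) (M + ε) hb with hg
  have h1 : mk f = mk g := by
    rw [mk_eq_mk]
    refine tendsto_const_nhds.congr' ?_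
    filter_upwards [eventually_ge_atTop N] with i hi
    simp [hg, hi]
  rw [h1]
  refine (Submodule.Quotient.norm_mk_le c0sub g).trans ?_
  exact lp.norm_le_of_forall_le (by positivity) fun i => by
    have := hb i
    rw [Real.norm_eq_abs]
    exact this

theorem le_norm_mk {f : Linf} {M : ℝ}
    (h : ∀ ε > 0, ∃ᶠ i in atTop, M - ε ≤ |f i|) : M ≤ ‖mk f‖ := by
  refine le_of_forall_pos_le_add fun ε hε => ?_
  obtain ⟨g, hg1, hg2⟩ := Submodule.Quotient.norm_mk_lt (mk f) (S := c0sub) (ε := ε / 3)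
    (by positivity)
  have h1 : mk f = mk g := hg1.symm
  rw [mk_eq_mk, Metric.tendsto_atTop] at h1
  obtain ⟨N, hN⟩ := h1 (ε / 3) (by positivity)
  obtain ⟨i, hi1, hi2⟩ := frequently_atTop.1 (h (ε / 3) (by positivity)) N
  have h2 := hN i hi1
  rw [Real.dist_eq, sub_zero] at h2
  have h3 := abs_apply_le g i
  have h4 := abs_sub_abs_le_abs_sub (f i) (g i)
  linarith

end Pool.Agent.H916R3.CH
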