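import Mathlib

set_option autoImplicit false
set_option maxSynthPendingDepth 6

/-!
# The space of the weak* limits of sequences of `X` in the bidual of `X`
-/

namespace Pool.Agent.H916R3.CH

open Filter Topology

variable {X : Type} [NormedAddCommGroup X] [NormedSpace ℝ X]

/-- The dual of `X`. -/
abbrev D1 (X : Type) [NormedAddCommGroup X] [NormedSpace ℝ X] : Type := X →L[ℝ] ℝ

/-- The bidual of `X`. -/
abbrev D2 (X : Type) [NormedAddCommGroup X] [NormedSpace ℝ X] : Type := D1 X →L[ℝ] ℝ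

/-- `F` is the weak* limit of the sequence `y` of elements of `X`. -/
def IsLim (F : D2 X) (y : ℕ → X) : Prop :=
  ∀ φ : D1 X, Tendsto (fun n => φ (y n)) atTop (𝓝 (F φ))

/-- The weak* limits of the sequences of `X`. -/
def Bone (X : Type) [NormedAddCommGroup X] [NormedSpace ℝ X] : Submodule ℝ (D2 X) where
  carrier := {F | ∃ y : ℕ → X, IsLim F y}
  add_mem' := by
    rintro F G ⟨y, hy⟩ ⟨z, hz⟩
    refine ⟨fun n => y n + z n, fun φ => ?_⟩
    have h := (hy φ).add (hz φ)
    simpa using h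
  zero_mem' := ⟨fun _ => 0, fun φ => by simp⟩
  smul_mem' := by
    rintro c F ⟨y, hy⟩
    refine ⟨fun n => c • y n, fun φ => ?_⟩
    have h := (hy φ).const_mul c
    simpa using h

theorem isLim_unique {F G : D2 X} {y : ℕ → X} (h : IsLim F y) (h' : IsLim G y) : F = G := by
  ext φ
  exact tendsto_nhds_unique (h φ) (h' φ)

theorem isLim_add {F G : D2 X} {y z : ℕ → X} (h : IsLim F y) (h' : IsLim G z) :
    IsLim (F + G) (fun n => y n + z n) := by
  intro φ
  have h := (h φ).add (h' φ)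
  simpa using h

theorem isLim_norm_le {F : D2 X} {y : ℕ → X} (h : IsLim F y) {M : ℝ} (hM : 0 ≤ M)
    (hy : ∀ n, ‖y n‖ ≤ M) : ‖F‖ ≤ M := by
  refine ContinuousLinearMap.opNorm_le_bound _ hM fun φ => ?_
  refine le_of_tendsto (h φ).norm (Eventually.of_forall fun n => ?_)
  calc ‖φ (y n)‖ ≤ ‖φ‖ * ‖y n‖ := φ.le_opNorm _
    _ ≤ ‖φ‖ * M := by gcongr; exact hy n
    _ = M * ‖φ‖ := mul_comm _ _

theorem exists_isLim (y : ℕ → X) {M : ℝ} (hy : ∀ n, ‖y n‖ ≤ M)
    (h : ∀ φ : D1 X, ∃ l, Tendsto (fun n => φ (y n)) atTop (𝓝 l)) : ∃ F : D2 X, IsLim F y := by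
  choose l hl using h
  let L : D1 X →ₗ[ℝ] ℝ :=
    { toFun := l
      map_add' := fun φ ψ => by
        refine tendsto_nhds_unique (hl (φ + ψ)) ?_
        simpa using (hl φ).add (hl ψ)
      map_smul' := fun c φ => by
        refine tendsto_nhds_unique (hl (c • φ)) ?_
        simpa using (hl φ).const_mul c }
  refine ⟨L.mkContinuous M fun φ => ?_, fun φ => hl φ⟩
  refine le_of_tendsto (hl φ).norm (Eventually.of_forall fun n => ?_)
  calc ‖φ (y n)‖ ≤ ‖φ‖ * ‖y n‖ := φ.le_opNorm _
    _ ≤ ‖φ‖ * M := by gcongr; exact hy n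
    _ = M * ‖φ‖ := mul_comm _ _

/-- The canonical embedding of `X` in its first Baire class. -/
noncomputable def J : X →ₗᵢ[ℝ] Bone X where
  toLinearMap := (NormedSpace.inclusionInDoubleDual ℝ X).toLinearMap.codRestrict (Bone X)
    (fun x => ⟨fun _ => x, fun φ => by simp⟩)
  norm_map' := fun x => (NormedSpace.inclusionInDoubleDualLi (E := X) ℝ).norm_map x

theorem J_apply (x : X) (φ : D1 X) : ((J x : Bone X) : D2 X) φ = φ x := rfl

theorem isLim_J (x : X) : IsLim ((J x : Bone X) : D2 X) (fun _ => x) := fun φ => by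
  simp [J_apply]

/-- The second adjoint of `S`, restricted to the first Baire class. -/
noncomputable def lift2 (S : X →L[ℝ] X) : Bone X →L[ℝ] Bone X :=
  LinearMap.mkContinuous
    { toFun := fun F => ⟨(F : D2 X).comp (ContinuousLinearMap.precomp ℝ S), by
        obtain ⟨y, hy⟩ := F.2
        exact ⟨fun n => S (y n), fun φ => hy (φ.comp S)⟩⟩
      map_add' := fun F G => by
        ext φ
        rfl
      map_smul' := fun c F => by
        ext φ
        rfl } ‖(ContinuousLinearMap.precomp ℝ S : D1 X →L[ℝ] D1 X)‖ (fun F => by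
      rw [mul_comm]
      exact ContinuousLinearMap.opNorm_comp_le _ _)

theorem lift2_J (S : X →L[ℝ] X) (x : X) : lift2 S (J x) = J (S x) := by
  apply Subtype.ext
  ext φ
  rfl

end Pool.Agent.H916R3.CH
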