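import Mathlib
import Pool.Agent.H916R3.CH.QC0
import Pool.Agent.H916R3.CH.WSpace

set_option autoImplicit false
set_option maxSynthPendingDepth 6

/-!
# `ℓ_∞ / c₀` is not complemented in its first Baire class
-/

namespace Pool.Agent.H916R3.CH

open Filter Topology

open Classical in
/-- The indicator function of a set of natural numbers. -/
noncomputable def ind (A : Set ℕ) : Linf :=
  toL (fun i => if i ∈ A then 1 else 0) 1 (fun i => by by_cases h : i ∈ A <;> simp [h])

theorem ind_of_mem {A : Set ℕ} {i : ℕ} (h : i ∈ A) : ind A i = 1 := by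
  simp [ind, h]

theorem ind_of_notMem {A : Set ℕ} {i : ℕ} (h : i ∉ A) : ind A i = 0 := by
  simp [ind, h]

theorem norm_mk_ind_le (A : Set ℕ) : ‖mk (ind A)‖ ≤ 1 := by
  apply norm_mk_le zero_le_one
  intro ε hε
  exact Eventually.of_forall fun i => by
    by_cases h : i ∈ A
    · rw [ind_of_mem h]; simp [hε.le]
    · rw [ind_of_notMem h]; simp; linarith

/-- `q ≤ r` on the part of the remainder given by `A`. -/
def LeOn (A : Set ℕ) (q : Q) (r : ℝ) : Prop :=
  ∃ a : Linf, mk a = q ∧ ∀ ε > 0, ∀ᶠ i in atTop, i ∈ A → a i ≤ r + ε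

theorem LeOn.rep {A : Set ℕ} {q : Q} {r : ℝ} (h : LeOn A q r) {a : Linf} (ha : mk a = q) :
    ∀ ε > 0, ∀ᶠ i in atTop, i ∈ A → a i ≤ r + ε := by
  obtain ⟨b, hb, h⟩ := h
  intro ε hε
  have h1 : mk a = mk b := ha.trans hb.symm
  rw [mk_eq_mk, Metric.tendsto_nhds] at h1
  filter_upwards [h1 (ε / 2) (by positivity), h (ε / 2) (by positivity)] with i h2 h3 hi
  rw [Real.dist_eq, sub_zero, abs_lt] at h2
  have := h3 hi
  linarith [h2.2]

theorem LeOn.add {A : Set ℕ} {q q' : Q} {r r' : ℝ} (h : LeOn A q r) (h' : LeOn A q' r') :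
    LeOn A (q + q') (r + r') := by
  obtain ⟨a, rfl, h⟩ := h
  obtain ⟨b, rfl, h'⟩ := h'
  refine ⟨a + b, map_add mk a b, fun ε hε => ?_⟩
  filter_upwards [h (ε / 2) (by positivity), h' (ε / 2) (by positivity)] with i h2 h3 hi
  have h4 : (a + b) i = a i + b i := rfl
  rw [h4]
  have := h2 hi
  have := h3 hi
  linarith

theorem LeOn.mono {A : Set ℕ} {q : Q} {r r' : ℝ} (h : LeOn A q r) (hr : r ≤ r') :
    LeOn A q r' := by
  obtain ⟨a, rfl, h⟩ := h
  refine ⟨a, rfl, fun ε hε => ?_⟩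
  filter_upwards [h ε hε] with i h2 hi
  linarith [h2 hi]

theorem LeOn.zero (A : Set ℕ) : LeOn A 0 0 := by
  refine ⟨0, map_zero mk, fun ε hε => Eventually.of_forall fun i _ => ?_⟩
  have : (0 : Linf) i = 0 := rfl
  rw [this]
  linarith

theorem LeOn.sum {ι : Type*} {A : Set ℕ} {q : ι → Q} {r : ℝ} (t : Finset ι)
    (h : ∀ x ∈ t, LeOn A (q x) r) : LeOn A (∑ x ∈ t, q x) (t.card * r) := by
  classical
  induction t using Finset.induction_on with
  | empty => simpa using LeOn.zero A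
  | insert x t hx ih =>
    rw [Finset.sum_insert hx, Finset.card_insert_of_notMem hx]
    have h1 := (h x (by simp)).add (ih fun y hy => h y (by simp [hy]))
    refine h1.mono (le_of_eq ?_)
    push_cast
    ring

theorem LeOn.le_norm {A : Set ℕ} (hA : A.Infinite) {q : Q} {r : ℝ} (h : LeOn A q (-r)) :
    r ≤ ‖q‖ := by
  obtain ⟨a, rfl, h⟩ := h
  apply le_norm_mk
  intro ε hε
  have h1 : ∃ᶠ i in atTop, i ∈ A := Nat.frequently_atTop_iff_infinite.2 hA
  refine (h1.and_eventually (h ε hε)).mono ?_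
  rintro i ⟨h2, h3⟩
  have := h3 h2
  have := neg_abs_le (a i)
  linarith

theorem LeOn.le_norm' {A : Set ℕ} (hA : A.Infinite) {q : Q} {r : ℝ} (h : LeOn A (-q) (-r)) :
    r ≤ ‖q‖ := by
  have := h.le_norm hA
  rwa [norm_neg] at this

theorem leOn_neg_ind {A B : Set ℕ} (h : A ⊆ B) : LeOn A (-mk (ind B)) (-1) := by
  refine ⟨-ind B, map_neg mk _, fun ε hε => Eventually.of_forall fun i hi => ?_⟩
  have h1 : (-ind B) i = -(ind B i) := rfl
  rw [h1, ind_of_mem (h hi)]
  linarith

section Fn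

variable (A : ℕ → Set ℕ)

/-- The union of the sets `A n`, `n ∈ M`, `n < N`. -/
def U (M : Set ℕ) (N : ℕ) : Set ℕ := {i | ∃ n ∈ M, n < N ∧ i ∈ A n}

variable {A}

theorem ind_union_of_disjoint {B C : Set ℕ} (h : Disjoint B C) : ind (B ∪ C) = ind B + ind C := by
  apply lp.ext
  funext i
  have h1 : (ind B + ind C) i = ind B i + ind C i := rfl
  rw [h1]
  by_cases hB : i ∈ B
  · have hC : i ∉ C := fun hC => Set.disjoint_left.1 h hB hC
    rw [ind_of_mem (Or.inl hB), ind_of_mem hB, ind_of_notMem hC]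
    ring
  · by_cases hC : i ∈ C
    · rw [ind_of_mem (Or.inr hC), ind_of_mem hC, ind_of_notMem hB]
      ring
    · rw [ind_of_notMem hB, ind_of_notMem hC, ind_of_notMem (by rintro (h | h) <;> contradiction)]
      ring

theorem mk_ind_union {B C : Set ℕ} (h : (B ∩ C).Finite) :
    mk (ind (B ∪ C)) = mk (ind B) + mk (ind C) := by
  have h0 : mk (ind B) + mk (ind C) = mk (ind B + ind C) := (map_add mk _ _).symm
  rw [h0, mk_eq_mk]
  refine tendsto_const_nhds.congr' ?_
  have h2 : ∀ᶠ i in atTop, i ∉ B ∩ C := by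
    rw [← Nat.cofinite_eq_atTop]
    exact h.compl_mem_cofinite
  filter_upwards [h2] with i hi
  have h1 : (ind B + ind C) i = ind B i + ind C i := rfl
  rw [h1]
  by_cases hB : i ∈ B
  · have hC : i ∉ C := fun hC => hi ⟨hB, hC⟩
    rw [ind_of_mem (Or.inl hB), ind_of_mem hB, ind_of_notMem hC]
    ring
  · by_cases hC : i ∈ C
    · rw [ind_of_mem (Or.inr hC), ind_of_mem hC, ind_of_notMem hB]
      ring
    · rw [ind_of_notMem hB, ind_of_notMem hC, ind_of_notMem (by rintro (h | h) <;> contradiction)]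
      ring

theorem sum_abs_le (hA : Pairwise (Function.onFun Disjoint A)) (φ : D1 Q) (E : Finset ℕ) :
    ∑ n ∈ E, |φ (mk (ind (A n)))| ≤ ‖φ‖ := by
  classical
  let s : ℕ → ℝ := fun n => if 0 ≤ φ (mk (ind (A n))) then 1 else -1
  have hs : ∀ n, |s n| = 1 := by
    intro n
    simp only [s]
    split_ifs <;> simp
  have h1 : ∀ n, |φ (mk (ind (A n)))| = s n * φ (mk (ind (A n))) := by
    intro n
    by_cases h : 0 ≤ φ (mk (ind (A n)))
    · simp [s, h, abs_of_nonneg h]
    · simp only [s, h, if_false]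
      rw [abs_of_neg (not_le.1 h)]
      ring
  let f : Linf := ∑ n ∈ E, s n • ind (A n)
  have hf : ∀ i, f i = ∑ n ∈ E, s n * ind (A n) i := by
    intro i
    simp only [f]
    rw [lp.coeFn_sum, Finset.sum_apply]
    rfl
  have h2 : ‖mk f‖ ≤ 1 := by
    apply norm_mk_le zero_le_one
    intro ε hε
    refine Eventually.of_forall fun i => ?_
    rw [hf i]
    by_cases h : ∃ n ∈ E, i ∈ A n
    · obtain ⟨n, hn, hi⟩ := h
      rw [Finset.sum_eq_single n]
      · rw [ind_of_mem hi, mul_one, hs n]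
        linarith
      · intro m _ hmn
        have : i ∉ A m := fun him => Set.disjoint_left.1 (hA hmn) him hi
        rw [ind_of_notMem this, mul_zero]
      · exact fun h => absurd hn h
    · push Not at h
      rw [Finset.sum_eq_zero]
      · simp
        linarith
      · intro m hm
        rw [ind_of_notMem (h m hm), mul_zero]
  calc ∑ n ∈ E, |φ (mk (ind (A n)))| = φ (mk f) := by
        simp only [f]
        rw [map_sum, map_sum]
        refine Finset.sum_congr rfl fun n _ => ?_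
        rw [h1 n, map_smul, map_smul, smul_eq_mul]
    _ ≤ ‖φ (mk f)‖ := le_abs_self _
    _ ≤ ‖φ‖ * ‖mk f‖ := φ.le_opNorm _
    _ ≤ ‖φ‖ * 1 := by gcongr
    _ = ‖φ‖ := mul_one _

theorem U_succ_of_mem {M : Set ℕ} {N : ℕ} (h : N ∈ M) : U A M (N + 1) = U A M N ∪ A N := by
  ext i
  constructor
  · rintro ⟨n, hn, hnN, hi⟩
    rcases Nat.lt_succ_iff_lt_or_eq.1 hnN with h1 | rfl
    · exact Or.inl ⟨n, hn, h1, hi⟩
    · exact Or.inr hi
  · rintro (⟨n, hn, hnN, hi⟩ | hi)
    · exact ⟨n, hn, by omega, hi⟩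
    · exact ⟨N, h, by omega, hi⟩

theorem U_succ_of_notMem {M : Set ℕ} {N : ℕ} (h : N ∉ M) : U A M (N + 1) = U A M N := by
  ext i
  constructor
  · rintro ⟨n, hn, hnN, hi⟩
    rcases Nat.lt_succ_iff_lt_or_eq.1 hnN with h1 | rfl
    · exact ⟨n, hn, h1, hi⟩
    · exact absurd hn h
  · rintro ⟨n, hn, hnN, hi⟩
    exact ⟨n, hn, by omega, hi⟩

open Classical in
theorem mk_ind_U (hA : Pairwise (Function.onFun Disjoint A)) (M : Set ℕ) (N : ℕ) :
    mk (ind (U A M N)) = ∑ n ∈ Finset.range N, if n ∈ M then mk (ind (A n)) else 0 := by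
  induction N with
  | zero =>
    have h1 : U A M 0 = ∅ := by
      ext i
      simp [U]
    have h2 : ind (∅ : Set ℕ) = 0 := by
      apply lp.ext
      funext i
      rw [ind_of_notMem (by simp)]
      rfl
    rw [h1, h2]
    simp
  | succ N ih =>
    rw [Finset.sum_range_succ, ← ih]
    by_cases h : N ∈ M
    · rw [if_pos h, U_succ_of_mem h, ind_union_of_disjoint]
      · exact map_add mk _ _
      · rw [Set.disjoint_left]
        rintro i ⟨n, _, hnN, hi⟩ hi'
        exact Set.disjoint_left.1 (hA (Nat.ne_of_lt hnN)) hi hi'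
    · rw [if_neg h, U_succ_of_notMem h, add_zero]

theorem exists_F (hA : Pairwise (Function.onFun Disjoint A)) :
    ∃ F : Set ℕ → Bone Q, (∀ M, IsLim (F M : D2 Q) (fun N => mk (ind (U A M N)))) ∧
      (∀ M, ‖F M‖ ≤ 1) ∧ (∀ M M', Disjoint M M' → F (M ∪ M') = F M + F M') ∧
      (∀ E : Set ℕ, E.Finite → F E = J (mk (ind {i | ∃ n ∈ E, i ∈ A n}))) := by
  classical
  have hex : ∀ M : Set ℕ, ∃ F : Bone Q, IsLim (F : D2 Q) (fun N => mk (ind (U A M N))) := by
    intro M
    obtain ⟨F, hF⟩ := exists_isLim (fun N => mk (ind (U A M N))) (M := 1)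
      (fun N => norm_mk_ind_le _) (by
        intro φ
        have h1 : Summable fun n => |φ (mk (ind (A n)))| :=
          summable_of_sum_le (c := ‖φ‖) (fun n => abs_nonneg _) (fun E => sum_abs_le hA φ E)
        have h2 : Summable fun n => if n ∈ M then φ (mk (ind (A n))) else 0 := by
          refine Summable.of_norm_bounded h1 fun n => ?_
          by_cases h : n ∈ M
          · simp [h]
          · simp [h]
        refine ⟨∑' n, if n ∈ M then φ (mk (ind (A n))) else 0, ?_⟩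
        refine h2.hasSum.tendsto_sum_nat.congr fun N => ?_
        rw [mk_ind_U hA, map_sum]
        refine Finset.sum_congr rfl fun n _ => ?_
        by_cases h : n ∈ M <;> simp [h])
    exact ⟨⟨F, _, hF⟩, hF⟩
  choose F hF using hex
  refine ⟨F, hF, fun M => ?_, fun M M' hM => ?_, fun E hE => ?_⟩
  · exact isLim_norm_le (hF M) zero_le_one fun N => norm_mk_ind_le _
  · apply Subtype.ext
    refine isLim_unique (hF (M ∪ M')) ?_
    have h1 := isLim_add (hF M) (hF M')
    intro φ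
    refine (h1 φ).congr fun N => ?_
    show φ (mk (ind (U A M N)) + mk (ind (U A M' N))) = φ (mk (ind (U A (M ∪ M') N)))
    congr 1
    rw [mk_ind_U hA, mk_ind_U hA, mk_ind_U hA, ← Finset.sum_add_distrib]
    refine Finset.sum_congr rfl fun n _ => ?_
    by_cases h : n ∈ M
    · have h' : n ∉ M' := fun h' => Set.disjoint_left.1 hM h h'
      simp [h, h']
    · simp [h]
  · apply Subtype.ext
    refine isLim_unique (hF E) ?_
    intro φ
    refine tendsto_const_nhds.congr' ?_
    obtain ⟨K, hK⟩ := hE.bddAbove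
    filter_upwards [eventually_gt_atTop K] with N hN
    have : U A E N = {i | ∃ n ∈ E, i ∈ A n} := by
      ext i
      constructor
      · rintro ⟨n, hn, _, hi⟩
        exact ⟨n, hn, hi⟩
      · rintro ⟨n, hn, hi⟩
        exact ⟨n, hn, (hK hn).trans_lt hN, hi⟩
    rw [this]
    rfl

end Fn

/-- An almost disjoint family indexed by the Cantor set. -/
theorem exists_ad : ∃ M : (ℕ → Bool) → Set ℕ, (∀ x, (M x).Infinite) ∧
    ∀ x y, x ≠ y → (M x ∩ M y).Finite := by
  let c : (ℕ → Bool) → ℕ → ℕ := fun x n => Encodable.encode ((List.range n).map x)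
  have hlen : ∀ x y n m, c x n = c y m → n = m := by
    intro x y n m h
    have h1 := congrArg List.length (Encodable.encode_injective h)
    simpa using h1
  have heq : ∀ x y n, c x n = c y n → ∀ i < n, x i = y i := by
    intro x y n h i hi
    have h1 := Encodable.encode_injective h
    rw [List.map_inj_left] at h1
    exact h1 i (List.mem_range.2 hi)
  refine ⟨fun x => Set.range (c x), fun x => ?_, fun x y hxy => ?_⟩
  · exact Set.infinite_range_of_injective fun n m h => hlen x x n m h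
  · obtain ⟨i, hi⟩ := Function.ne_iff.1 hxy
    refine ((Set.finite_Iic i).image (c x)).subset ?_
    rintro _ ⟨⟨n, rfl⟩, ⟨m, hm⟩⟩
    have h1 := hlen y x m n hm
    subst h1
    refine ⟨m, ?_, rfl⟩
    by_contra h
    rw [Set.mem_Iic, not_le] at h
    exact hi (heq x y m hm.symm i h)

theorem exists_infinite_fiber {β : Type*} [Countable β] (f : (ℕ → Bool) → β) :
    ∃ b, (f ⁻¹' {b}).Infinite := by
  by_contra h
  push Not at h
  have h1 : (Set.univ : Set (ℕ → Bool)).Countable := by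
    have h2 : (Set.univ : Set (ℕ → Bool)) = ⋃ b, f ⁻¹' {b} := by
      ext x
      simp
    rw [h2]
    exact Set.countable_iUnion fun b => (h b).countable
  have h3 : Countable (ℕ → Bool) := Set.countable_univ_iff.1 h1
  have h4 : Cardinal.mk (ℕ → Bool) ≤ Cardinal.aleph0 := Cardinal.mk_le_aleph0_iff.2 h3
  have h5 : Cardinal.mk (ℕ → Bool) = Cardinal.continuum := by
    rw [← Cardinal.power_def, Cardinal.mk_bool, Cardinal.mk_nat, Cardinal.two_power_aleph0]
  rw [h5] at h4
  exact absurd h4 (not_le.2 Cardinal.aleph0_lt_continuum)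

theorem key_select (R : Bone Q →L[ℝ] Q) (hR : ∀ q, R (J q) = q) {A : ℕ → Set ℕ}
    (hA2 : ∀ n, (A n).Infinite) {F : Set ℕ → Bone Q}
    (hF1 : ∀ M, ‖F M‖ ≤ 1) (hF2 : ∀ M M', Disjoint M M' → F (M ∪ M') = F M + F M')
    (hF3 : ∀ E : Set ℕ, E.Finite → F E = J (mk (ind {i | ∃ n ∈ E, i ∈ A n}))) :
    ∃ M : Set ℕ, M.Infinite ∧ ∀ n ∈ M, ∀ ε > 0, ¬ LeOn (A n) (R (F M)) (1 - ε) := by
  classical
  by_contra hcon
  push Not at hcon
  obtain ⟨M, hM1, hM2⟩ := exists_ad
  have h1 : ∀ x, ∃ p : ℕ × ℕ, p.1 ∈ M x ∧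
      LeOn (A p.1) (R (F (M x))) (1 - 1 / ((p.2 : ℝ) + 1)) := by
    intro x
    obtain ⟨n, hn, ε, hε, h⟩ := hcon (M x) (hM1 x)
    obtain ⟨m, hm⟩ := exists_nat_one_div_lt hε
    exact ⟨(n, m), hn, h.mono (by linarith)⟩
  choose p hp1 hp2 using h1
  obtain ⟨⟨n, m⟩, hnm⟩ := exists_infinite_fiber p
  obtain ⟨L, hL⟩ := exists_nat_gt (((m : ℝ) + 1) * ‖R‖)
  obtain ⟨t, ht1, ht2⟩ := hnm.exists_subset_card_eq L
  have hn : ∀ x ∈ t, n ∈ M x ∧ LeOn (A n) (R (F (M x))) (1 - 1 / ((m : ℝ) + 1)) := by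
    intro x hx
    have h2 : p x = (n, m) := ht1 hx
    have h3 := hp1 x
    have h4 := hp2 x
    rw [h2] at h3 h4
    exact ⟨h3, h4⟩
  let E : Set ℕ := {n} ∪ ⋃ x ∈ t, ⋃ y ∈ t, ⋃ _ : x ≠ y, (M x ∩ M y)
  have hE : E.Finite := by
    refine (Set.finite_singleton n).union ?_
    refine Set.Finite.biUnion t.finite_toSet fun x _ => ?_
    refine Set.Finite.biUnion t.finite_toSet fun y _ => ?_
    by_cases h : x ≠ y
    · simp only [h, ne_eq, not_false_eq_true, Set.iUnion_true]
      exact hM2 x y h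
    · simp [h]
  have hmemE : ∀ x ∈ t, ∀ y ∈ t, x ≠ y → ∀ k, k ∈ M x → k ∈ M y → k ∈ E := by
    intro x hx y hy hxy k hkx hky
    refine Or.inr ?_
    simp only [Set.mem_iUnion]
    exact ⟨x, hx, y, hy, hxy, hkx, hky⟩
  have hle : ∀ x ∈ t, LeOn (A n) (R (F (M x \ E))) (-(1 / ((m : ℝ) + 1))) := by
    intro x hx
    have h2 : F (M x) = F (M x \ E) + F (M x ∩ E) := by
      rw [← hF2 _ _ Set.disjoint_sdiff_inter, Set.sdiff_union_inter]
    have h3 : R (F (M x ∩ E)) = mk (ind {i | ∃ k ∈ M x ∩ E, i ∈ A k}) := by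
      rw [hF3 _ (hE.subset Set.inter_subset_right), hR]
    have h4 : R (F (M x \ E)) = R (F (M x)) + -mk (ind {i | ∃ k ∈ M x ∩ E, i ∈ A k}) := by
      rw [h2, map_add, h3]
      abel
    rw [h4]
    have h5 : LeOn (A n) (-mk (ind {i | ∃ k ∈ M x ∩ E, i ∈ A k})) (-1) := by
      apply leOn_neg_ind
      intro i hi
      exact ⟨n, ⟨(hn x hx).1, Or.inl rfl⟩, hi⟩
    exact ((hn x hx).2.add h5).mono (by linarith)
  have hsum : ∀ s ⊆ t, F (⋃ x ∈ s, (M x \ E)) = ∑ x ∈ s, F (M x \ E) := by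
    intro s
    induction s using Finset.induction_on with
    | empty =>
      intro _
      simp only [Finset.notMem_empty, Set.iUnion_of_empty, Set.iUnion_empty, Finset.sum_empty]
      have h6 := hF2 ∅ ∅ (Set.disjoint_empty _)
      rw [Set.union_empty] at h6
      exact left_eq_add.1 h6
    | insert x s hx ih =>
      intro hs
      rw [Finset.sum_insert hx, ← ih ((Finset.subset_insert x s).trans hs),
        Finset.set_biUnion_insert, hF2]
      rw [Set.disjoint_left]
      intro k hk hk'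
      simp only [Set.mem_iUnion] at hk'
      obtain ⟨y, hy, hk'⟩ := hk'
      have hxy : x ≠ y := by
        rintro rfl
        exact hx hy
      exact hk.2 (hmemE x (hs (by simp)) y (hs (by simp [hy])) hxy k hk.1 hk'.1)
  have h7 := (LeOn.sum t hle)
  rw [← map_sum, ← hsum t le_rfl, ht2] at h7
  have h8 : (L : ℝ) * (-(1 / ((m : ℝ) + 1))) = -((L : ℝ) / ((m : ℝ) + 1)) := by
    ring
  rw [h8] at h7
  have h9 := h7.le_norm (hA2 n)
  have h10 : ‖R (F (⋃ x ∈ t, (M x \ E)))‖ ≤ ‖R‖ * 1 :=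
    (R.le_opNorm _).trans (by gcongr; exact hF1 _)
  have h11 : (L : ℝ) / ((m : ℝ) + 1) ≤ ‖R‖ := by linarith
  rw [div_le_iff₀ (by positivity)] at h11
  linarith

theorem exists_split {D : Set ℕ} (hD : D.Infinite) : ∃ A : ℕ → Set ℕ,
    (∀ n, A n ⊆ D) ∧ (∀ n, (A n).Infinite) ∧ Pairwise (Function.onFun Disjoint A) := by
  classical
  have : Infinite D := hD.to_subtype
  let e : ℕ ↪o ℕ := Nat.orderEmbeddingOfSet D
  have he : ∀ n, e n ∈ D := fun n => by
    have h1 : e n ∈ Set.range (Nat.orderEmbeddingOfSet D) := Set.mem_range_self n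
    rwa [Nat.orderEmbeddingOfSet_range] at h1
  refine ⟨fun n => Set.range fun m => e (Nat.pair n m), fun n => ?_, fun n => ?_, ?_⟩
  · rintro _ ⟨m, rfl⟩
    exact he _
  · apply Set.infinite_range_of_injective
    intro m m' h
    have h1 := e.injective h
    have h2 := congrArg Nat.unpair h1
    simpa using h2
  · intro n n' hn
    show Disjoint _ _
    rw [Set.disjoint_left]
    rintro _ ⟨m, rfl⟩ ⟨m', h⟩
    have h1 := e.injective h
    have h2 := congrArg Nat.unpair h1
    simp at h2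
    exact hn h2.1.symm

/-- The induction step of the amplification. -/
theorem amp_step (R : Bone Q →L[ℝ] Q) (hR : ∀ q, R (J q) = q) (k : ℕ)
    (h : ∃ (D : Set ℕ) (F : Bone Q) (B : ℕ → Set ℕ), D.Infinite ∧
      IsLim (F : D2 Q) (fun N => mk (ind (B N))) ∧ (∀ N, (B N ∩ D).Finite) ∧
      LeOn D (-R F) (-(k : ℝ))) :
    ∃ (D : Set ℕ) (F : Bone Q) (B : ℕ → Set ℕ), D.Infinite ∧
      IsLim (F : D2 Q) (fun N => mk (ind (B N))) ∧ (∀ N, (B N ∩ D).Finite) ∧
      LeOn D (-R F) (-((k + 1 : ℕ) : ℝ)) := by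
  classical
  obtain ⟨D, G, B, hD, hG, hB, hk⟩ := h
  obtain ⟨A, hA1, hA2, hA3⟩ := exists_split hD
  obtain ⟨F, hF0, hF1, hF2, hF3⟩ := exists_F hA3
  obtain ⟨M, hM, hsel⟩ := key_select R hR hA2 hF1 hF2 hF3
  obtain ⟨a, ha⟩ := exists_rep (R (F M))
  obtain ⟨b, hb⟩ := exists_rep (-R G)
  -- choose the points
  have h1 : ∀ n, n ∈ M → ∃ i, i ∈ A n ∧ 1 - 1 / ((n : ℝ) + 1) < a i := by
    intro n hn
    by_contra hcon
    push Not at hcon
    apply hsel n hn (1 / ((n : ℝ) + 1)) (by positivity)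
    refine ⟨a, ha, fun ε hε => Eventually.of_forall fun i hi => ?_⟩
    linarith [hcon i hi]
  choose! j hj1 hj2 using h1
  have hinj : ∀ n ∈ M, ∀ n' ∈ M, j n = j n' → n = n' := by
    intro n hn n' hn' h
    by_contra hne
    have h2 := hj1 n hn
    have h3 := hj1 n' hn'
    rw [← h] at h3
    exact Set.disjoint_left.1 (hA3 hne) h2 h3
  have hD' : (j '' M).Infinite := hM.image fun n hn n' hn' h => hinj n hn n' hn' h
  refine ⟨j '' M, G + F M, fun N => B N ∪ U A M N, hD', ?_, fun N => ?_, ?_⟩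
  · have h2 := isLim_add hG (hF0 M)
    intro φ
    refine (h2 φ).congr fun N => ?_
    show φ (mk (ind (B N)) + mk (ind (U A M N))) = φ (mk (ind (B N ∪ U A M N)))
    rw [mk_ind_union]
    refine (hB N).subset ?_
    rintro i ⟨hi1, n, _, _, hi2⟩
    exact ⟨hi1, hA1 n hi2⟩
  · rw [Set.union_inter_distrib_right]
    refine Set.Finite.union ((hB N).subset ?_) ?_
    · rintro i ⟨hi1, n, hn, rfl⟩
      exact ⟨hi1, hA1 n (hj1 n hn)⟩
    · refine ((Set.finite_lt_nat N).image j).subset ?_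
      rintro i ⟨⟨n, hn, hnN, hi⟩, n', hn', rfl⟩
      have : n = n' := by
        by_contra hne
        exact Set.disjoint_left.1 (hA3 hne) hi (hj1 n' hn')
      subst this
      exact ⟨n, hnN, rfl⟩
  · have hbk := hk.rep hb
    refine ⟨b + -a, ?_, fun ε hε => ?_⟩
    · have : mk (b + -a) = mk b + -mk a := by
        rw [show mk (b + -a) = mk b + mk (-a) from map_add mk _ _,
          show mk (-a) = -mk a from map_neg mk _]
      rw [this, ha, hb, map_add]
      abel
    · obtain ⟨K, hK⟩ := exists_nat_one_div_lt (show (0 : ℝ) < ε / 2 by positivity)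
      have hfin : (j '' {n | n < K}).Finite := (Set.finite_lt_nat K).image j
      have h3 : ∀ᶠ i in atTop, i ∉ j '' {n | n < K} := by
        rw [← Nat.cofinite_eq_atTop]
        exact hfin.compl_mem_cofinite
      filter_upwards [hbk (ε / 2) (by positivity), h3] with i hi1 hi2
      rintro ⟨n, hn, rfl⟩
      have h4 := hi1 (hA1 n (hj1 n hn))
      have h5 := hj2 n hn
      have h6 : K ≤ n := by
        by_contra h
        exact hi2 ⟨n, not_le.1 h, rfl⟩
      have h7 : 1 / ((n : ℝ) + 1) ≤ 1 / ((K : ℝ) + 1) := by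
        apply one_div_le_one_div_of_le (by positivity)
        have : (K : ℝ) ≤ n := by exact_mod_cast h6
        linarith
      have h8 : (b + -a) (j n) = b (j n) + -(a (j n)) := rfl
      rw [h8]
      push_cast
      linarith

/-- There is no bounded retraction of the first Baire class of `ℓ_∞ / c₀` onto `ℓ_∞ / c₀`. -/
theorem no_retraction (R : Bone Q →L[ℝ] Q) (hR : ∀ q, R (J q) = q) : False := by
  have h : ∀ k : ℕ, ∃ (D : Set ℕ) (F : Bone Q) (B : ℕ → Set ℕ), D.Infinite ∧
      IsLim (F : D2 Q) (fun N => mk (ind (B N))) ∧ (∀ N, (B N ∩ D).Finite) ∧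
      LeOn D (-R F) (-(k : ℝ)) := by
    intro k
    induction k with
    | zero =>
      refine ⟨Set.univ, 0, fun _ => ∅, Set.infinite_univ, ?_, by simp, ?_⟩
      · have h2 : ind (∅ : Set ℕ) = 0 := by
          apply lp.ext
          funext i
          rw [ind_of_notMem (by simp)]
          rfl
        intro φ
        simp [h2]
      · simpa using LeOn.zero Set.univ
    | succ k ih => exact amp_step R hR k ih
  obtain ⟨k, hk⟩ := exists_nat_gt ‖R‖
  obtain ⟨D, F, B, hD, hF, _, hle⟩ := h k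
  have h1 := hle.le_norm' hD
  have h2 : ‖F‖ ≤ 1 := isLim_norm_le hF zero_le_one fun N => norm_mk_ind_le _
  have h3 : ‖R F‖ ≤ ‖R‖ * 1 := (R.le_opNorm _).trans (by gcongr)
  linarith

end Pool.Agent.H916R3.CH
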