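import Mathlib

set_option autoImplicit false
set_option maxSynthPendingDepth 6

/-!
# Every normed space with at most `ℵ₁` points sits in `ℓ_∞ / c₀`: the recursion
-/

namespace Pool.Agent.H916R3.CH

open Filter Topology

section diag

theorem diag {β : Type*} [Nonempty β] (P : ℕ → ℕ → β → Prop)
    (hP : ∀ m, ∀ᶠ i in atTop, ∃ x, ∀ m' ≤ m, P m' i x) :
    ∃ f : ℕ → β, ∀ m, ∀ᶠ i in atTop, P m i (f i) := by
  classical
  let T : ℕ → ℕ → Prop := fun i m => ∃ x, ∀ m' ≤ m, P m' i x
  have hT : ∀ i, ∃ x : β, T i (Nat.findGreatest (T i) i) →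
      ∀ m' ≤ Nat.findGreatest (T i) i, P m' i x := by
    intro i
    by_cases h : T i (Nat.findGreatest (T i) i)
    · obtain ⟨x, hx⟩ := h
      exact ⟨x, fun _ => hx⟩
    · exact ⟨Classical.arbitrary β, fun h' => absurd h' h⟩
  choose f hf using hT
  refine ⟨f, fun m => ?_⟩
  filter_upwards [hP m, eventually_ge_atTop m] with i hi him
  have h1 : T i (Nat.findGreatest (T i) i) := Nat.findGreatest_spec (P := T i) him hi
  exact hf i h1 m (Nat.le_findGreatest him hi)

end diag

variable {W : Type} [NormedAddCommGroup W] [NormedSpace ℝ W]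

/-- The finite part of the requirements. -/
def Ok (F : Finset W) (a : W → ℕ → ℝ) : Prop :=
  (∀ v ∈ F, ∀ i, |a v i| ≤ ‖v‖) ∧
  (∀ ε > 0, ∀ᶠ i in atTop, ∃ φ : W →L[ℝ] ℝ, ‖φ‖ ≤ 1 ∧ ∀ v ∈ F, |a v i - φ v| < ε) ∧
  (∀ φ : W →L[ℝ] ℝ, ‖φ‖ ≤ 1 → ∀ ε > 0, ∃ᶠ i in atTop, ∀ v ∈ F, |a v i - φ v| < ε)

theorem Ok.congr {F : Finset W} {a b : W → ℕ → ℝ} (h : Ok F a) (hab : ∀ v ∈ F, a v = b v) :
    Ok F b := by
  obtain ⟨h1, h2, h3⟩ := h
  refine ⟨fun v hv i => ?_, fun ε hε => ?_, fun φ hφ ε hε => ?_⟩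
  · rw [← hab v hv]
    exact h1 v hv i
  · filter_upwards [h2 ε hε] with i hi
    obtain ⟨φ, hφ, hi⟩ := hi
    refine ⟨φ, hφ, fun v hv => ?_⟩
    rw [← hab v hv]
    exact hi v hv
  · refine (h3 φ hφ ε hε).mono fun i hi v hv => ?_
    rw [← hab v hv]
    exact hi v hv

theorem ok_empty (a : W → ℕ → ℝ) : Ok (∅ : Finset W) a := by
  refine ⟨by simp, fun ε _ => ?_, fun φ _ ε _ => ?_⟩
  · exact Eventually.of_forall fun i => ⟨0, by simp, by simp⟩
  · exact Frequently.of_forall fun i => by simp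

/-- A sequence of functionals in the unit ball which is dense in the topology of pointwise
convergence on a countable set, with infinite repetition. -/
theorem exists_dense_functionals (I : Set W) (hI : I.Countable) :
    ∃ ψ : ℕ → W →L[ℝ] ℝ, (∀ k, ‖ψ k‖ ≤ 1) ∧
      ∀ φ : W →L[ℝ] ℝ, ‖φ‖ ≤ 1 → ∀ F : Finset W, (F : Set W) ⊆ I → ∀ ε > 0,
        ∃ᶠ k in atTop, ∀ v ∈ F, |ψ k v - φ v| < ε := by
  classical
  have : Countable I := hI.to_subtype
  let ρ : {φ : W →L[ℝ] ℝ // ‖φ‖ ≤ 1} → (I → ℝ) := fun φ v => φ.1 v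
  let R := Set.range ρ
  have : Nonempty {φ : W →L[ℝ] ℝ // ‖φ‖ ≤ 1} := ⟨⟨0, by simp⟩⟩
  have : Nonempty R := ⟨⟨ρ ⟨0, by simp⟩, Set.mem_range_self _⟩⟩
  let d : ℕ → R := TopologicalSpace.denseSeq R
  have hd : ∀ n, ∃ φ : {φ : W →L[ℝ] ℝ // ‖φ‖ ≤ 1}, ρ φ = (d n : I → ℝ) := fun n => (d n).2
  choose g hg using hd
  refine ⟨fun k => (g (Nat.unpair k).1).1, fun k => (g (Nat.unpair k).1).2, ?_⟩
  intro φ hφ F hF ε hε
  let U : Set R := {x | ∀ v : I, (v : W) ∈ F → |(x : I → ℝ) v - φ v| < ε}
  have hU : IsOpen U := by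
    have h1 : U = ⋂ v ∈ {v : I | (v : W) ∈ F}, {x : R | |(x : I → ℝ) v - φ v| < ε} := by
      ext x
      simp [U]
    rw [h1]
    apply Set.Finite.isOpen_biInter
    · have : ((fun v : I => (v : W)) ⁻¹' (F : Set W)).Finite :=
        F.finite_toSet.preimage Subtype.val_injective.injOn
      exact this
    · intro v _
      apply isOpen_lt _ continuous_const
      exact ((continuous_apply v).comp continuous_subtype_val).sub continuous_const |>.abs
  have hne : U.Nonempty := by
    refine ⟨⟨ρ ⟨φ, hφ⟩, Set.mem_range_self _⟩, fun v _ => ?_⟩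
    simp only [ρ, sub_self, abs_zero]
    exact hε
  obtain ⟨n, hn⟩ := (TopologicalSpace.denseRange_denseSeq R).exists_mem_open hU hne
  rw [frequently_atTop]
  intro K
  refine ⟨Nat.pair n K, Nat.right_le_pair n K, fun v hv => ?_⟩
  have h2 := hn ⟨v, hF hv⟩ hv
  have h3 : ((d n : R) : I → ℝ) ⟨v, hF hv⟩ = (g n).1 v := by
    rw [← hg n]
  simp only [Nat.unpair_pair]
  rw [← h3]
  exact h2

omit [NormedAddCommGroup W] [NormedSpace ℝ W] in
theorem exists_exhaustion (I : Set W) (hI : I.Countable) :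
    ∃ E : ℕ → Finset W, (∀ m, (E m : Set W) ⊆ I) ∧ Monotone E ∧
      ∀ F : Finset W, (F : Set W) ⊆ I → ∃ m, F ⊆ E m := by
  classical
  rcases I.eq_empty_or_nonempty with rfl | hne
  · refine ⟨fun _ => ∅, by simp, fun _ _ _ => le_rfl, fun F hF => ⟨0, ?_⟩⟩
    intro x hx
    exact absurd (hF hx) (by simp)
  · obtain ⟨v, hv⟩ := hI.exists_eq_range hne
    refine ⟨fun m => (Finset.range m).image v, ?_, ?_, ?_⟩
    · intro m x hx
      simp only [Finset.coe_image, Set.mem_image] at hx
      obtain ⟨n, _, rfl⟩ := hx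
      rw [hv]
      exact Set.mem_range_self n
    · intro m m' h
      exact Finset.image_subset_image (Finset.range_subset_range.2 h)
    · intro F
      induction F using Finset.induction_on with
      | empty => exact fun _ => ⟨0, by simp⟩
      | insert x F hx ih =>
        intro hF
        obtain ⟨m, hm⟩ := ih ((Finset.coe_subset.2 (Finset.subset_insert x F)).trans hF)
        have hxI : x ∈ I := hF (by simp)
        rw [hv] at hxI
        obtain ⟨n, rfl⟩ := hxI
        refine ⟨max m (n + 1), ?_⟩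
        intro y hy
        rcases Finset.mem_insert.1 hy with rfl | hy
        · exact Finset.mem_image.2 ⟨n, Finset.mem_range.2 (by omega), rfl⟩
        · obtain ⟨j, hj, rfl⟩ := Finset.mem_image.1 (hm hy)
          have := Finset.mem_range.1 hj
          exact Finset.mem_image.2 ⟨j, Finset.mem_range.2 (by omega), rfl⟩

open Classical in
theorem extend_one (I : Set W) (hI : I.Countable) (w : W) (hw : w ∉ I) (a : W → ℕ → ℝ)
    (ha : ∀ F : Finset W, (F : Set W) ⊆ I → Ok F a) :
    ∃ b : ℕ → ℝ, ∀ F : Finset W, (F : Set W) ⊆ insert w I → Ok F (Function.update a w b) := by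
  have : Nonempty {φ : W →L[ℝ] ℝ // ‖φ‖ ≤ 1} := ⟨⟨0, by simp⟩⟩
  obtain ⟨E, hE1, hE2, hE3⟩ := exists_exhaustion I hI
  obtain ⟨ψ, hψ1, hψ2⟩ := exists_dense_functionals (insert w I) (hI.insert w)
  -- functionals following the sequence
  obtain ⟨f, hf⟩ := diag (β := {φ : W →L[ℝ] ℝ // ‖φ‖ ≤ 1})
    (fun m i φ => ∀ v ∈ E m, |a v i - φ.1 v| < 1 / ((m : ℝ) + 1)) (by
      intro m
      filter_upwards [(ha (E m) (hE1 m)).2.1 (1 / ((m : ℝ) + 1)) (by positivity)] with i hi
      obtain ⟨φ, hφ, hi⟩ := hi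
      refine ⟨⟨φ, hφ⟩, fun m' hm' v hv => ?_⟩
      refine (hi v (hE2 hm' hv)).trans_le ?_
      apply one_div_le_one_div_of_le (by positivity)
      have : (m' : ℝ) ≤ m := by exact_mod_cast hm'
      linarith)
  obtain ⟨e, he1, he2⟩ := extraction_forall_of_frequently
    (P := fun k i => ∀ v ∈ E k, |a v i - ψ k v| < 1 / ((k : ℝ) + 1)) (by
      intro k
      exact (ha (E k) (hE1 k)).2.2 (ψ k) (hψ1 k) _ (by positivity))
  have hθ : ∀ i, ∃ θ : W →L[ℝ] ℝ, ‖θ‖ ≤ 1 ∧ (∀ k, e k = i → θ = ψ k) ∧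
      ((∀ k, e k ≠ i) → θ = (f i).1) := by
    intro i
    by_cases h : ∃ k, e k = i
    · obtain ⟨k, hk⟩ := h
      refine ⟨ψ k, hψ1 k, fun k' hk' => ?_, fun h' => absurd hk (h' k)⟩
      rw [he1.injective (hk.trans hk'.symm)]
    · push Not at h
      exact ⟨(f i).1, (f i).2, fun k hk => absurd hk (h k), fun _ => rfl⟩
  choose θ hθ1 hθ2 hθ3 using hθ
  have hB : ∀ F : Finset W, (F : Set W) ⊆ I → ∀ ε > 0, ∀ᶠ i in atTop,
      ∀ v ∈ F, |a v i - θ i v| < ε := by
    intro F hF ε hε
    obtain ⟨m₀, hm₀⟩ := hE3 F hF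
    obtain ⟨m₁, hm₁⟩ := exists_nat_one_div_lt hε
    set m := max m₀ m₁ with hm
    have hFm : F ⊆ E m := hm₀.trans (hE2 (le_max_left _ _))
    have hεm : ∀ k, m ≤ k → 1 / ((k : ℝ) + 1) < ε := by
      intro k hk
      refine lt_of_le_of_lt ?_ hm₁
      apply one_div_le_one_div_of_le (by positivity)
      have : (m₁ : ℝ) ≤ k := by exact_mod_cast (le_max_right m₀ m₁).trans hk
      linarith
    filter_upwards [hf m, eventually_ge_atTop (e m)] with i hi hi2 v hv
    by_cases h : ∃ k, e k = i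
    · obtain ⟨k, hk⟩ := h
      have hmk : m ≤ k := by
        rw [← hk] at hi2
        exact he1.le_iff_le.1 hi2
      rw [hθ2 i k hk]
      have h4 := he2 k v (hE2 hmk (hFm hv))
      rw [hk] at h4
      exact h4.trans (hεm k hmk)
    · push Not at h
      rw [hθ3 i h]
      exact (hi v (hFm hv)).trans (hεm m le_rfl)
  have hupd : ∀ (b : ℕ → ℝ) (v : W), v ∈ I → Function.update a w b v = a v := by
    intro b v hv
    apply Function.update_of_ne
    rintro rfl
    exact hw hv
  refine ⟨fun i => θ i w, fun F hF => ?_⟩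
  have hF' : ((F.erase w : Finset W) : Set W) ⊆ I := by
    intro v hv
    have h1 : v ∈ F.erase w := hv
    rw [Finset.mem_erase] at h1
    rcases hF h1.2 with h2 | h2
    · exact absurd h2 h1.1
    · exact h2
  have hb : ∀ v ∈ F, v = w ∨ (v ∈ F.erase w ∧ v ∈ I) := by
    intro v hv
    by_cases h : v = w
    · exact Or.inl h
    · exact Or.inr ⟨Finset.mem_erase.2 ⟨h, hv⟩, hF' (Finset.mem_erase.2 ⟨h, hv⟩)⟩
  refine ⟨fun v hv i => ?_, fun ε hε => ?_, fun φ hφ ε hε => ?_⟩
  · rcases hb v hv with rfl | ⟨h1, h2⟩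
    · rw [Function.update_self]
      have h3 := (θ i).le_opNorm v
      rw [Real.norm_eq_abs] at h3
      have h4 := mul_le_mul_of_nonneg_right (hθ1 i) (norm_nonneg v)
      linarith
    · rw [hupd _ v h2]
      exact (ha {v} (by simpa using h2)).1 v (by simp) i
  · filter_upwards [hB _ hF' ε hε] with i hi
    refine ⟨θ i, hθ1 i, fun v hv => ?_⟩
    rcases hb v hv with rfl | ⟨h1, h2⟩
    · rw [Function.update_self]
      simpa using hε
    · rw [hupd _ v h2]
      exact hi v h1
  · have h5 := hψ2 φ hφ F hF (ε / 2) (by positivity)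
    have h6 := he1.tendsto_atTop.eventually (hB _ hF' (ε / 2) (by positivity))
    have h7 : ∃ᶠ k in atTop, ∀ v ∈ F,
        |Function.update a w (fun i => θ i w) v (e k) - φ v| < ε := by
      refine (h5.and_eventually h6).mono ?_
      rintro k ⟨h8, h9⟩ v hv
      have h10 := h8 v hv
      have h11 : θ (e k) = ψ k := hθ2 (e k) k rfl
      rcases hb v hv with rfl | ⟨h1, h2⟩
      · rw [Function.update_self, h11]
        linarith
      · rw [hupd _ v h2]
        have h12 := h9 v h1
        rw [h11] at h12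
        have h13 := abs_sub_le (a v (e k)) (ψ k v) (φ v)
        linarith
    exact he1.tendsto_atTop.frequently h7

omit [NormedAddCommGroup W] [NormedSpace ℝ W] in
theorem exists_max (r : W → W → Prop) [IsWellOrder W r] (F : Finset W) (hF : F.Nonempty) :
    ∃ m ∈ F, ∀ v ∈ F, v = m ∨ r v m := by
  classical
  induction hF using Finset.Nonempty.cons_induction with
  | singleton a => exact ⟨a, by simp, fun v hv => Or.inl (by simpa using hv)⟩
  | cons a s ha hs ih =>
    obtain ⟨m, hm, hm'⟩ := ih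
    rcases trichotomous_of r a m with h | h | h
    · refine ⟨m, by simp [hm], fun v hv => ?_⟩
      rcases Finset.mem_cons.1 hv with rfl | hv
      · exact Or.inr h
      · exact hm' v hv
    · subst h
      exact absurd hm ha
    · refine ⟨a, by simp, fun v hv => ?_⟩
      rcases Finset.mem_cons.1 hv with rfl | hv
      · exact Or.inl rfl
      · rcases hm' v hv with rfl | h2
        · exact Or.inr h
        · exact Or.inr (trans_of r h2 h)

theorem exists_family (r : W → W → Prop) [IsWellOrder W r] (hr : ∀ w, {v | r v w}.Countable) :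
    ∃ a : W → ℕ → ℝ, ∀ F : Finset W, Ok F a := by
  classical
  have hwf : WellFounded r := IsWellFounded.wf
  let Good : W → (W → ℕ → ℝ) → (ℕ → ℝ) → Prop := fun w a₀ b =>
    ∀ F : Finset W, (F : Set W) ⊆ insert w {v | r v w} → Ok F (Function.update a₀ w b)
  let ext : ∀ w : W, (∀ v, r v w → ℕ → ℝ) → W → ℕ → ℝ := fun w rec v =>
    if h : r v w then rec v h else 0
  let step : ∀ w : W, (∀ v, r v w → ℕ → ℝ) → ℕ → ℝ := fun w rec =>
    if h : ∃ b, Good w (ext w rec) b then h.choose else 0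
  let a : W → ℕ → ℝ := hwf.fix step
  have ha : ∀ w, a w = step w (fun v _ => a v) := fun w => hwf.fix_eq step w
  have key : ∀ w, ∀ F : Finset W, (F : Set W) ⊆ insert w {v | r v w} → Ok F a := by
    intro w
    induction w using hwf.induction with
    | _ w ih =>
    have h1 : ∀ F : Finset W, (F : Set W) ⊆ {v | r v w} → Ok F a := by
      intro F hF
      rcases F.eq_empty_or_nonempty with rfl | hne
      · exact ok_empty a
      · obtain ⟨m, hm, hm'⟩ := exists_max r F hne
        exact ih m (hF hm) F fun v hv => hm' v hv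
    have h2 : ∀ F : Finset W, (F : Set W) ⊆ {v | r v w} → Ok F (ext w fun v _ => a v) := by
      intro F hF
      refine (h1 F hF).congr fun v hv => ?_
      have : r v w := hF hv
      simp [ext, this]
    have h3 : ∃ b, Good w (ext w fun v _ => a v) b :=
      extend_one {v | r v w} (hr w) w (irrefl_of r w) _ h2
    have h4 : a w = h3.choose := by
      rw [ha w]
      simp only [step]
      rw [dif_pos h3]
    intro F hF
    refine (h3.choose_spec F hF).congr fun v hv => ?_
    rcases hF hv with rfl | h5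
    · rw [Function.update_self, h4]
    · have h6 : v ≠ w := by
        rintro rfl
        exact irrefl_of r v h5
      rw [Function.update_of_ne h6]
      have h7 : r v w := h5
      simp [ext, h7]
  refine ⟨a, fun F => ?_⟩
  rcases F.eq_empty_or_nonempty with rfl | hne
  · exact ok_empty a
  · obtain ⟨m, hm, hm'⟩ := exists_max r F hne
    exact key m F fun v hv => hm' v hv

end Pool.Agent.H916R3.CH
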