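import Mathlib
import Pool.Agent.H916R3.CH.QC0
import Pool.Agent.H916R3.CH.Univ

set_option autoImplicit false
set_option maxSynthPendingDepth 6

/-!
# Every normed space with at most `ℵ₁` points embeds isometrically in `ℓ_∞ / c₀`
-/

namespace Pool.Agent.H916R3.CH

open Filter Topology

variable {W : Type} [NormedAddCommGroup W] [NormedSpace ℝ W]

theorem exists_isometry_of_family (a : W → ℕ → ℝ) (ha : ∀ F : Finset W, Ok F a) :
    Nonempty (W →ₗᵢ[ℝ] Q) := by
  classical
  have hbd : ∀ w i, |a w i| ≤ ‖w‖ := fun w i => (ha {w}).1 w (by simp) i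
  let A : W → Linf := fun w => toL (a w) ‖w‖ (hbd w)
  have hA : ∀ w i, A w i = a w i := fun w i => rfl
  have hadd : ∀ u v, mk (A (u + v)) = mk (A u) + mk (A v) := by
    intro u v
    have h0 : mk (A u) + mk (A v) = mk (A u + A v) := (map_add mk (A u) (A v)).symm
    rw [h0, mk_eq_mk, Metric.tendsto_nhds]
    intro ε hε
    filter_upwards [(ha {u, v, u + v}).2.1 (ε / 3) (by positivity)] with i hi
    obtain ⟨φ, _, hi⟩ := hi
    have h1 := hi u (by simp)
    have h2 := hi v (by simp)
    have h3 := hi (u + v) (by simp)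
    rw [map_add] at h3
    rw [Real.dist_eq, sub_zero]
    have h4 : (A u + A v) i = a u i + a v i := rfl
    rw [h4, hA]
    rw [abs_lt] at h1 h2 h3 ⊢
    constructor <;> linarith [h1.1, h1.2, h2.1, h2.2, h3.1, h3.2]
  have hsmul : ∀ (c : ℝ) u, mk (A (c • u)) = c • mk (A u) := by
    intro c u
    have h0 : c • mk (A u) = mk (c • A u) := (map_smul mk c (A u)).symm
    rw [h0, mk_eq_mk, Metric.tendsto_nhds]
    intro ε hε
    filter_upwards [(ha {u, c • u}).2.1 (ε / (2 * (|c| + 1))) (by positivity)] with i hi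
    obtain ⟨φ, _, hi⟩ := hi
    have h1 := hi u (by simp)
    have h3 := hi (c • u) (by simp)
    rw [map_smul, smul_eq_mul] at h3
    rw [Real.dist_eq, sub_zero]
    have h4 : (c • A u) i = c * a u i := rfl
    rw [h4, hA]
    have h5 : |c * φ u - c * a u i| ≤ |c| * (ε / (2 * (|c| + 1))) := by
      rw [← mul_sub, abs_mul, abs_sub_comm]
      exact mul_le_mul_of_nonneg_left h1.le (abs_nonneg _)
    have h6 : (|c| + 1) * (ε / (2 * (|c| + 1))) = ε / 2 := by
      field_simp
    have h7 := abs_sub_le (a (c • u) i) (c * φ u) (c * a u i)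
    have h8 : 0 < ε / (2 * (|c| + 1)) := by positivity
    nlinarith [abs_nonneg c]
  have hnorm : ∀ u, ‖mk (A u)‖ = ‖u‖ := by
    intro u
    apply le_antisymm
    · apply norm_mk_le (norm_nonneg u)
      intro ε hε
      exact Eventually.of_forall fun i => by
        rw [hA]
        linarith [hbd u i]
    · apply le_norm_mk
      intro ε hε
      obtain ⟨φ, h1, h2⟩ := exists_dual_vector'' ℝ u
      refine ((ha {u}).2.2 φ h1 ε hε).mono fun i hi => ?_
      have h3 := hi u (by simp)
      rw [h2] at h3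
      rw [hA]
      have h4 : |a u i - ‖u‖| < ε := h3
      rw [abs_lt] at h4
      have := le_abs_self (a u i)
      linarith [h4.1]
  exact ⟨{ toLinearMap := { toFun := fun w => mk (A w), map_add' := hadd, map_smul' := hsmul }
           norm_map' := hnorm }⟩

theorem exists_isometry (hW : Cardinal.mk W ≤ Cardinal.aleph 1) : Nonempty (W →ₗᵢ[ℝ] Q) := by
  obtain ⟨r, wo, hr⟩ := Cardinal.exists_ord_eq W
  obtain ⟨a, ha⟩ := exists_family r (by
    intro w
    have h1 : Cardinal.mk {v // r v w} < Cardinal.mk W := by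
      have h2 := Ordinal.typein_lt_type r w
      rw [← hr] at h2
      have h3 := Cardinal.lt_ord.1 h2
      exact h3
    have h4 : Cardinal.mk {v // r v w} < Cardinal.aleph 1 := h1.trans_le hW
    have h5 : Cardinal.mk {v // r v w} ≤ Cardinal.aleph0 := by
      exact Cardinal.lt_aleph_one_iff.1 h4
    exact Cardinal.mk_le_aleph0_iff.1 h5)
  exact exists_isometry_of_family a ha

end Pool.Agent.H916R3.CH
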