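import Mathlib
import Pool.Agent.H916R3.CH.Emb
import Pool.Agent.H916R3.CH.Amp

set_option autoImplicit false
set_option maxSynthPendingDepth 6

/-!
# Under CH, a copy of `ℓ_∞ / c₀` in itself without complemented subcopies
-/

namespace Pool.Agent.H916R3.CH

open Filter Topology

theorem mk_Q_le : Cardinal.mk Q ≤ Cardinal.continuum := by
  have h1 : Cardinal.mk Q ≤ Cardinal.mk Linf :=
    Cardinal.mk_le_of_surjective (f := (mk : Linf → Q)) exists_rep
  have h2 : Cardinal.mk Linf ≤ Cardinal.mk (ℕ → ℝ) :=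
    Cardinal.mk_le_of_injective (f := fun f : Linf => (f : ℕ → ℝ)) fun _ _ h => lp.ext h
  have h3 : Cardinal.mk (ℕ → ℝ) = Cardinal.continuum := by
    rw [← Cardinal.power_def, Cardinal.mk_real, Cardinal.mk_nat,
      Cardinal.continuum_power_aleph0]
  exact (h1.trans h2).trans h3.le

theorem mk_Bone_le : Cardinal.mk (Bone Q) ≤ Cardinal.continuum := by
  have h1 : ∀ F : Bone Q, ∃ y : ℕ → Q, IsLim (F : D2 Q) y := fun F => F.2
  choose y hy using h1
  have h2 : Function.Injective y := by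
    intro F G h
    apply Subtype.ext
    refine isLim_unique (hy F) ?_
    rw [h]
    exact hy G
  have h3 : Cardinal.mk (Bone Q) ≤ Cardinal.mk (ℕ → Q) := Cardinal.mk_le_of_injective h2
  have h4 : Cardinal.mk (ℕ → Q) ≤ Cardinal.continuum := by
    rw [← Cardinal.power_def, Cardinal.mk_nat]
    calc Cardinal.mk Q ^ Cardinal.aleph0 ≤ Cardinal.continuum ^ Cardinal.aleph0 :=
          Cardinal.power_le_power_right mk_Q_le
      _ = Cardinal.continuum := Cardinal.continuum_power_aleph0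
  exact h3.trans h4

/-- `Y` is a copy of `ℓ_∞ / c₀`. -/
def IsCopy (Y : Submodule ℝ Q) : Prop :=
  IsClosed (Y : Set Q) ∧ Nonempty (Q ≃L[ℝ] Y)

theorem no_complemented_subcopy (j : Bone Q →ₗᵢ[ℝ] Q) (Z : Submodule ℝ Q)
    (hZ : Z ≤ LinearMap.range ((j.comp J).toLinearMap)) (e : Q ≃L[ℝ] Z)
    (hc : Z.ClosedComplemented) : False := by
  obtain ⟨P, hP⟩ := hc
  -- the map `S` with `j J S = e`
  let g : Q →ₗᵢ[ℝ] Q := j.comp J
  let E : Q ≃ₗᵢ[ℝ] LinearMap.range g.toLinearMap := g.equivRange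
  have hEg : ∀ q, ((E q : LinearMap.range g.toLinearMap) : Q) = g q := fun q => rfl
  let inc : Z →L[ℝ] LinearMap.range g.toLinearMap :=
    (Z.subtypeL).codRestrict _ (fun z => hZ z.2)
  let S : Q →L[ℝ] Q :=
    (E.symm.toContinuousLinearEquiv : LinearMap.range g.toLinearMap →L[ℝ] Q).comp
      (inc.comp (e : Q →L[ℝ] Z))
  have hS : ∀ q, j (J (S q)) = (e q : Q) := by
    intro q
    have h1 : g (S q) = ((E (S q) : LinearMap.range g.toLinearMap) : Q) := rfl
    have h2 : E (S q) = inc (e q) := by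
      show E (E.symm (inc (e q))) = inc (e q)
      exact E.apply_symm_apply _
    show g (S q) = _
    rw [h1, h2]
    rfl
  let R : Bone Q →L[ℝ] Q :=
    ((e.symm : Z →L[ℝ] Q).comp (P.comp j.toContinuousLinearMap)).comp (lift2 S)
  apply no_retraction R
  intro q
  show e.symm (P (j (lift2 S (J q)))) = q
  rw [lift2_J, hS, hP]
  exact e.symm_apply_apply q

theorem main (hCH : Cardinal.aleph.{0} 1 = Cardinal.continuum) :
    ∃ Y : Submodule ℝ Q, IsCopy Y ∧
      ∀ Z : Submodule ℝ Q, Z ≤ Y → IsCopy Z → ¬ Z.ClosedComplemented := by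
  obtain ⟨j⟩ := exists_isometry (W := Bone Q) (by rw [hCH]; exact mk_Bone_le)
  refine ⟨LinearMap.range ((j.comp J).toLinearMap), ⟨?_, ?_⟩, ?_⟩
  · have h1 : IsClosed (Set.range (j.comp J)) :=
      (j.comp J).isometry.isClosedEmbedding.isClosed_range
    have h2 : (LinearMap.range ((j.comp J).toLinearMap) : Set Q) = Set.range (j.comp J) := by
      ext x
      simp
    rw [h2]
    exact h1
  · exact ⟨(j.comp J).equivRange.toContinuousLinearEquiv⟩
  · rintro Z hZ ⟨_, ⟨e⟩⟩ hc
    exact no_complemented_subcopy j Z hZ e hc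

end Pool.Agent.H916R3.CH
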