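import Mathlib
import Pool.Agent.H916R3.CH.Main

set_option autoImplicit false
set_option maxSynthPendingDepth 6

/-!
# `ℓ_∞ / c₀` as the space of the continuous functions on the remainder of `ℕ`
-/

namespace Pool.Agent.H916R3.CH

open Filter Topology
open scoped BoundedContinuousFunction

/-- The canonical map of `ℕ` in its Stone-Čech compactification. -/
noncomputable abbrev u : ℕ → StoneCech ℕ := stoneCechUnit

theorem ext_mem (f : Linf) (n : ℕ) : f n ∈ Set.Icc (-‖f‖) ‖f‖ :=
  abs_le.1 (abs_apply_le f n)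

/-- The continuous extension of a bounded sequence. -/
noncomputable def ext (f : Linf) : C(StoneCech ℕ, ℝ) :=
  ⟨fun x => ((stoneCechExtend (g := fun n => (⟨f n, ext_mem f n⟩ : Set.Icc (-‖f‖) ‖f‖))
      continuous_of_discreteTopology x : Set.Icc (-‖f‖) ‖f‖) : ℝ),
    continuous_subtype_val.comp (continuous_stoneCechExtend _)⟩

theorem ext_u (f : Linf) (n : ℕ) : ext f (u n) = f n := by
  simp only [ext, u, ContinuousMap.coe_mk]
  rw [stoneCechExtend_stoneCechUnit]

theorem eq_on_closure {A : Set ℕ} {G H : C(StoneCech ℕ, ℝ)} (h : ∀ n ∈ A, G (u n) = H (u n))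
    {x : StoneCech ℕ} (hx : x ∈ closure (u '' A)) : G x = H x := by
  have h1 : IsClosed {x | G x = H x} := isClosed_eq G.continuous H.continuous
  have h2 : closure (u '' A) ⊆ {x | G x = H x} := by
    apply closure_minimal _ h1
    rintro _ ⟨n, hn, rfl⟩
    exact h n hn
  exact h2 hx

theorem eq_of_eq {G H : C(StoneCech ℕ, ℝ)} (h : ∀ n, G (u n) = H (u n)) : G = H := by
  ext x
  apply eq_on_closure (A := Set.univ) (fun n _ => h n)
  rw [Set.image_univ]
  exact denseRange_stoneCechUnit x

theorem ext_add (f g : Linf) : ext (f + g) = ext f + ext g := by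
  apply eq_of_eq
  intro n
  rw [ContinuousMap.add_apply, ext_u, ext_u, ext_u]
  rfl

theorem ext_smul (c : ℝ) (f : Linf) : ext (c • f) = c • ext f := by
  apply eq_of_eq
  intro n
  rw [ContinuousMap.smul_apply, ext_u, ext_u]
  rfl

theorem isOpen_u (n : ℕ) : IsOpen ({u n} : Set (StoneCech ℕ)) := by
  have h1 : IsOpen {x | ext (ind {n}) x ≠ 0} :=
    isOpen_ne_fun (ext (ind {n})).continuous continuous_const
  have h2 : {x | ext (ind {n}) x ≠ 0} = {u n} := by
    ext x
    constructor
    · intro hx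
      have h3 : x ∈ closure (Set.range u) := denseRange_stoneCechUnit x
      have h4 : x ∈ closure ({x | ext (ind {n}) x ≠ 0} ∩ Set.range u) :=
        h1.inter_closure ⟨hx, h3⟩
      have h5 : {x | ext (ind {n}) x ≠ 0} ∩ Set.range u ⊆ {u n} := by
        rintro _ ⟨hy, m, rfl⟩
        have h6 : ext (ind {n}) (u m) ≠ 0 := hy
        rw [ext_u] at h6
        by_cases hm : m ∈ ({n} : Set ℕ)
        · rw [Set.mem_singleton_iff.1 hm]
          rfl
        · exact absurd (ind_of_notMem hm) h6
      have h7 := closure_mono h5 h4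
      rwa [closure_singleton] at h7
    · rintro rfl
      show ext (ind {n}) (u n) ≠ 0
      rw [ext_u, ind_of_mem (by simp)]
      exact one_ne_zero
  rw [← h2]
  exact h1

theorem isClosed_rem : IsClosed ((Set.range u)ᶜ : Set (StoneCech ℕ)) := by
  rw [isClosed_compl_iff]
  have : Set.range u = ⋃ n, {u n} := by
    ext x
    simp [eq_comm]
  rw [this]
  exact isOpen_iUnion isOpen_u

theorem u_injective : Function.Injective u := by
  intro n m h
  by_contra hne
  have h1 := ext_u (ind {n}) n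
  have h2 := ext_u (ind {n}) m
  rw [ind_of_mem (by simp)] at h1
  rw [ind_of_notMem (by simpa using Ne.symm hne)] at h2
  rw [h] at h1
  rw [h1] at h2
  exact one_ne_zero h2

/-- A point of the remainder in the closure of an infinite set. -/
theorem exists_rem {D : Set ℕ} (hD : D.Infinite) :
    ∃ y, y ∈ closure (u '' D) ∧ y ∉ Set.range u := by
  have h1 : (u '' D).Infinite := hD.image u_injective.injOn
  obtain ⟨y, _, hy⟩ := h1.exists_accPt_of_subset_isCompact isCompact_univ (Set.subset_univ _)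
  refine ⟨y, hy.clusterPt.mem_closure, ?_⟩
  rintro ⟨n, rfl⟩
  have h2 : 𝓝[≠] (u n) = ⊥ := by
    rw [← isOpen_singleton_iff_punctured_nhds]
    exact isOpen_u n
  rw [AccPt, h2, bot_inf_eq] at hy
  exact NeBot.ne hy rfl

theorem mem_closure_tail {e : ℕ → ℕ} {y : StoneCech ℕ} (hy : y ∈ closure (u '' Set.range e))
    (hy' : y ∉ Set.range u) (N : ℕ) : y ∈ closure (u '' (e '' {n | N ≤ n})) := by
  have h1 : u '' Set.range e = u '' (e '' {n | n < N}) ∪ u '' (e '' {n | N ≤ n}) := by
    rw [← Set.image_union, ← Set.image_union, ← Set.image_univ]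
    congr 2
    ext n
    simp [lt_or_ge]
  have h2 : (u '' (e '' {n | n < N})).Finite := ((Set.finite_lt_nat N).image e).image u
  rw [h1, closure_union, h2.isClosed.closure_eq] at hy
  rcases hy with h | h
  · obtain ⟨m, _, rfl⟩ := h
    exact absurd ⟨m, rfl⟩ hy'
  · exact h

theorem eventually_le_norm (f : Linf) {ε : ℝ} (hε : 0 < ε) :
    ∀ᶠ i in atTop, |f i| ≤ ‖mk f‖ + ε := by
  by_contra h
  rw [not_eventually] at h
  have h1 : ‖mk f‖ + ε ≤ ‖mk f‖ := by
    apply le_norm_mk
    intro δ hδ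
    refine h.mono fun i hi => ?_
    rw [not_le] at hi
    linarith
  linarith

theorem frequently_norm_le (f : Linf) {ε : ℝ} (hε : 0 < ε) :
    ∃ᶠ i in atTop, ‖mk f‖ - ε ≤ |f i| := by
  by_cases h0 : ‖mk f‖ - ε < 0
  · exact Frequently.of_forall fun i => h0.le.trans (abs_nonneg _)
  · by_contra h
    rw [not_frequently] at h
    have h1 : ‖mk f‖ ≤ ‖mk f‖ - ε := by
      apply norm_mk_le (not_lt.1 h0)
      intro δ hδ
      filter_upwards [h] with i hi
      rw [not_le] at hi
      linarith
    linarith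

open Classical in
/-- Extension by zero along `e`. -/
noncomputable def S0 (e : ℕ → ℕ) (f : Linf) : Linf :=
  toL (Function.extend e (fun n => f n) 0) ‖f‖ (by
    intro i
    by_cases h : ∃ n, e n = i
    · rw [Function.extend_def, dif_pos h]
      exact abs_apply_le f _
    · rw [Function.extend_apply' _ _ _ h]
      simp)

theorem S0_apply {e : ℕ → ℕ} (he : Function.Injective e) (f : Linf) (n : ℕ) :
    S0 e f (e n) = f n := by
  rw [S0, toL_apply]
  exact he.extend_apply _ _ n

theorem S0_apply' {e : ℕ → ℕ} (f : Linf) {i : ℕ} (h : i ∉ Set.range e) : S0 e f i = 0 := by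
  rw [S0, toL_apply]
  exact Function.extend_apply' _ _ _ h

theorem S0_add {e : ℕ → ℕ} (he : Function.Injective e) (f g : Linf) :
    S0 e (f + g) = S0 e f + S0 e g := by
  apply lp.ext
  funext i
  have h1 : (S0 e f + S0 e g) i = S0 e f i + S0 e g i := rfl
  rw [h1]
  by_cases h : i ∈ Set.range e
  · obtain ⟨n, rfl⟩ := h
    rw [S0_apply he, S0_apply he, S0_apply he]
    rfl
  · rw [S0_apply' _ h, S0_apply' _ h, S0_apply' _ h, add_zero]

theorem S0_smul {e : ℕ → ℕ} (he : Function.Injective e) (c : ℝ) (f : Linf) :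
    S0 e (c • f) = c • S0 e f := by
  apply lp.ext
  funext i
  have h1 : (c • S0 e f) i = c * S0 e f i := rfl
  rw [h1]
  by_cases h : i ∈ Set.range e
  · obtain ⟨n, rfl⟩ := h
    rw [S0_apply he, S0_apply he]
    rfl
  · rw [S0_apply' _ h, S0_apply' _ h, mul_zero]

theorem norm_mk_S0_le {e : ℕ → ℕ} (he : Function.Injective e) (f : Linf) :
    ‖mk (S0 e f)‖ ≤ ‖mk f‖ := by
  apply norm_mk_le (norm_nonneg _)
  intro ε hε
  obtain ⟨N, hN⟩ := eventually_atTop.1 (eventually_le_norm f hε)
  have h1 : ∀ᶠ i in atTop, i ∉ e '' {n | n < N} := by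
    rw [← Nat.cofinite_eq_atTop]
    exact ((Set.finite_lt_nat N).image e).compl_mem_cofinite
  filter_upwards [h1] with i hi
  by_cases h : i ∈ Set.range e
  · obtain ⟨n, rfl⟩ := h
    rw [S0_apply he]
    apply hN
    by_contra hn
    exact hi ⟨n, not_le.1 hn, rfl⟩
  · rw [S0_apply' _ h, abs_zero]
    positivity

/-- Extension by zero along `e`, as an operator on `ℓ_∞ / c₀`. -/
theorem exists_S {e : ℕ → ℕ} (he : Function.Injective e) :
    ∃ S : Q →L[ℝ] Q, ∀ f, S (mk f) = mk (S0 e f) := by
  let L : Linf →ₗ[ℝ] Q :=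
    { toFun := fun f => mk (S0 e f)
      map_add' := fun f g => by rw [S0_add he, map_add]
      map_smul' := fun c f => by rw [S0_smul he, map_smul]; rfl }
  have hL : c0sub ≤ LinearMap.ker L := by
    intro f hf
    have h1 : mk f = 0 := by
      rw [mk, Submodule.mkQ_apply, Submodule.Quotient.mk_eq_zero]
      exact hf
    rw [LinearMap.mem_ker]
    have h2 := norm_mk_S0_le he f
    rw [h1, norm_zero] at h2
    exact norm_le_zero_iff.1 h2
  refine ⟨(c0sub.liftQ L hL).mkContinuous 1 fun q => ?_, fun f => rfl⟩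
  obtain ⟨f, rfl⟩ := exists_rep q
  rw [one_mul]
  exact norm_mk_S0_le he f

section Phi

variable {K : Type} [TopologicalSpace K] [CompactSpace K]

/-- The identification of `ℓ_∞ / c₀` with the continuous functions on the remainder of the range of
`e`. -/
theorem exists_Phi {e : ℕ → ℕ} (he : Function.Injective e) (ι : C(K, StoneCech ℕ))
    (hι : IsClosedEmbedding ι) (hr : Set.range ι = closure (u '' Set.range e) \ Set.range u) :
    ∃ Φ : Q ≃ₗᵢ[ℝ] (K →ᵇ ℝ), ∀ f x, Φ (mk f) x = ext (S0 e f) (ι x) := by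
  have hmem : ∀ x : K, ι x ∈ closure (u '' Set.range e) ∧ ι x ∉ Set.range u := by
    intro x
    have : ι x ∈ Set.range ι := Set.mem_range_self x
    rw [hr] at this
    exact this
  let L : Linf →ₗ[ℝ] (K →ᵇ ℝ) :=
    { toFun := fun f => BoundedContinuousFunction.mkOfCompact ((ext (S0 e f)).comp ι)
      map_add' := fun f g => by
        ext x
        simp [S0_add he, ext_add]
      map_smul' := fun c f => by
        ext x
        simp [S0_smul he, ext_smul] }
  have hLa : ∀ f x, L f x = ext (S0 e f) (ι x) := fun f x => rfl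
  have hn1 : ∀ f, ‖L f‖ ≤ ‖mk f‖ := by
    intro f
    rw [BoundedContinuousFunction.norm_le (norm_nonneg _)]
    intro x
    refine le_of_forall_pos_le_add fun ε hε => ?_
    obtain ⟨N, hN⟩ := eventually_atTop.1 (eventually_le_norm f hε)
    have h1 : IsClosed {y | |ext (S0 e f) y| ≤ ‖mk f‖ + ε} :=
      isClosed_le (ext (S0 e f)).continuous.abs continuous_const
    have h2 : closure (u '' (e '' {n | N ≤ n})) ⊆ {y | |ext (S0 e f) y| ≤ ‖mk f‖ + ε} := by
      apply closure_minimal _ h1
      rintro _ ⟨_, ⟨n, hn, rfl⟩, rfl⟩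
      show |ext (S0 e f) (u (e n))| ≤ _
      rw [ext_u, S0_apply he]
      exact hN n hn
    have h3 := h2 (mem_closure_tail (hmem x).1 (hmem x).2 N)
    rw [hLa, Real.norm_eq_abs]
    exact h3
  have hn2 : ∀ f, ‖mk f‖ ≤ ‖L f‖ := by
    intro f
    refine le_of_forall_pos_le_add fun ε hε => ?_
    have h1 : {i | ‖mk f‖ - ε ≤ |f i|}.Infinite :=
      Nat.frequently_atTop_iff_infinite.1 (frequently_norm_le f hε)
    obtain ⟨y, hy1, hy2⟩ := exists_rem (h1.image he.injOn)
    have h2 : y ∈ Set.range ι := by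
      rw [hr]
      exact ⟨closure_mono (Set.image_mono (Set.image_subset_range _ _)) hy1, hy2⟩
    obtain ⟨x, rfl⟩ := h2
    have h3 : IsClosed {y | ‖mk f‖ - ε ≤ |ext (S0 e f) y|} :=
      isClosed_le continuous_const (ext (S0 e f)).continuous.abs
    have h4 : closure (u '' (e '' {i | ‖mk f‖ - ε ≤ |f i|}))
        ⊆ {y | ‖mk f‖ - ε ≤ |ext (S0 e f) y|} := by
      apply closure_minimal _ h3
      rintro _ ⟨_, ⟨n, hn, rfl⟩, rfl⟩
      show _ ≤ |ext (S0 e f) (u (e n))|
      rw [ext_u, S0_apply he]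
      exact hn
    have h5 : ‖mk f‖ - ε ≤ |ext (S0 e f) (ι x)| := h4 hy1
    have h6 := (L f).norm_coe_le_norm x
    rw [hLa, Real.norm_eq_abs] at h6
    linarith
  have hL : c0sub ≤ LinearMap.ker L := by
    intro f hf
    have h1 : mk f = 0 := by
      rw [mk, Submodule.mkQ_apply, Submodule.Quotient.mk_eq_zero]
      exact hf
    rw [LinearMap.mem_ker]
    have h2 := hn1 f
    rw [h1, norm_zero] at h2
    exact norm_le_zero_iff.1 h2
  let Φ₀ : Q →ₗᵢ[ℝ] (K →ᵇ ℝ) :=
    { toLinearMap := c0sub.liftQ L hL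
      norm_map' := fun q => by
        obtain ⟨f, rfl⟩ := exists_rep q
        exact le_antisymm (hn1 f) (hn2 f) }
  have hsurj : Function.Surjective Φ₀ := by
    intro h
    obtain ⟨g, _, hg⟩ := BoundedContinuousFunction.exists_extension_norm_eq_of_isClosedEmbedding
      h hι
    let f : Linf := toL (fun n => g (u (e n))) ‖g‖ (fun n => by
      have := g.norm_coe_le_norm (u (e n))
      rwa [Real.norm_eq_abs] at this)
    refine ⟨mk f, ?_⟩
    ext x
    have h1 : Φ₀ (mk f) x = ext (S0 e f) (ι x) := rfl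
    have h2 : ext (S0 e f) (ι x) = g.toContinuousMap (ι x) := by
      apply eq_on_closure _ (hmem x).1
      rintro _ ⟨n, rfl⟩
      rw [ext_u, S0_apply he]
      rfl
    rw [h1, h2]
    exact congrFun hg x
  exact ⟨LinearIsometryEquiv.ofSurjective Φ₀ hsurj, fun f x => rfl⟩

end Phi

end Pool.Agent.H916R3.CH
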