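import Mathlib
import Pool.Agent.H916R3.CH.Beta

set_option autoImplicit false
set_option maxSynthPendingDepth 6

/-!
# Under CH, an isometric embedding of `C(ℕ*)` into itself which is nowhere canonizable
-/

namespace Pool.Agent.H916R3.CH

open Filter Topology
open scoped BoundedContinuousFunction

/-- The remainder of `ℕ` in its Stone-Čech compactification. -/
abbrev Rem : Set (StoneCech ℕ) := (Set.range (stoneCechUnit : ℕ → StoneCech ℕ))ᶜ

theorem exists_enum {A : Set ℕ} (hA : A.Infinite) :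
    ∃ e : ℕ → ℕ, Function.Injective e ∧ Set.range e = A := by
  classical
  have : Infinite A := hA.to_subtype
  exact ⟨Nat.orderEmbeddingOfSet A, (Nat.orderEmbeddingOfSet A).injective,
    Nat.orderEmbeddingOfSet_range A⟩

theorem canon_main (j : Bone Q →ₗᵢ[ℝ] Q) :
    ∃ T : (Rem →ᵇ ℝ) →ₗᵢ[ℝ] (Rem →ᵇ ℝ),
      ¬ ∃ (A : Set ℕ) (F : Set Rem) (r : ℝ), A.Infinite ∧ IsClosed F ∧ r ≠ 0 ∧
        ∃ ψ : F ≃ₜ {x : Rem | (x.1 : StoneCech ℕ) ∈
            closure ((stoneCechUnit : ℕ → StoneCech ℕ) '' A)},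
          ∀ G : C(StoneCech ℕ, ℝ),
            (∀ n : ℕ, n ∉ A → G (stoneCechUnit n) = 0) →
            ∀ x : F,
              T ((BoundedContinuousFunction.mkOfCompact G).compContinuous
                  ⟨Subtype.val, continuous_subtype_val⟩) x.1
                = r * G ((ψ x).1).1 := by
  have hc : CompactSpace Rem := isCompact_iff_compactSpace.1 isClosed_rem.isCompact
  obtain ⟨Φ, hΦ⟩ := exists_Phi (K := Rem) (e := id) Function.injective_id
    ⟨Subtype.val, continuous_subtype_val⟩ isClosed_rem.isClosedEmbedding_subtypeVal (by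
      simp only [ContinuousMap.coe_mk, Subtype.range_coe_subtype, Set.range_id, Set.image_univ]
      ext x
      constructor
      · intro hx
        exact ⟨denseRange_stoneCechUnit x, hx⟩
      · rintro ⟨_, hx⟩
        exact hx)
  let T : (Rem →ᵇ ℝ) →ₗᵢ[ℝ] (Rem →ᵇ ℝ) :=
    Φ.toLinearIsometry.comp ((j.comp J).comp Φ.symm.toLinearIsometry)
  have hT : ∀ q, T (Φ q) = Φ (j (J q)) := by
    intro q
    show Φ (j (J (Φ.symm (Φ q)))) = _
    rw [Φ.symm_apply_apply]
  refine ⟨T, ?_⟩
  rintro ⟨A, F, r, hA, hF, hr, ψ, hψ⟩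
  obtain ⟨e, he, hre⟩ := exists_enum hA
  -- the clopen set of `A`
  let KA : Set Rem := {x : Rem | (x.1 : StoneCech ℕ) ∈
            closure ((stoneCechUnit : ℕ → StoneCech ℕ) '' A)}
  have hKA : IsClosed KA := isClosed_closure.preimage continuous_subtype_val
  have hc2 : CompactSpace KA := isCompact_iff_compactSpace.1 hKA.isCompact
  let ι : C(KA, StoneCech ℕ) :=
    ⟨fun x => x.1.1, continuous_subtype_val.comp continuous_subtype_val⟩
  have hι : IsClosedEmbedding ι :=
    isClosed_rem.isClosedEmbedding_subtypeVal.comp hKA.isClosedEmbedding_subtypeVal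
  have hrι : Set.range ι = closure (u '' Set.range e) \ Set.range u := by
    rw [hre]
    ext x
    constructor
    · rintro ⟨y, rfl⟩
      exact ⟨y.2, y.1.2⟩
    · rintro ⟨h1, h2⟩
      exact ⟨⟨⟨x, h2⟩, h1⟩, rfl⟩
  obtain ⟨ΦA, hΦA⟩ := exists_Phi he ι hι hrι
  obtain ⟨S, hS⟩ := exists_S he
  -- the operator `g ↦ r⁻¹ g ∘ ψ⁻¹`
  let c : C(KA, Rem) := ⟨fun y => (ψ.symm y).1, continuous_subtype_val.comp ψ.symm.continuous⟩
  let P : (Rem →ᵇ ℝ) →L[ℝ] (KA →ᵇ ℝ) :=
    LinearMap.mkContinuous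
      { toFun := fun g => r⁻¹ • g.compContinuous c
        map_add' := fun g h => by
          ext y
          simp [mul_add]
        map_smul' := fun a g => by
          ext y
          simp [mul_left_comm] } |r⁻¹| (fun g => by
        rw [LinearMap.coe_mk, AddHom.coe_mk, norm_smul, Real.norm_eq_abs]
        apply mul_le_mul_of_nonneg_left _ (abs_nonneg _)
        rw [BoundedContinuousFunction.norm_le (norm_nonneg _)]
        intro y
        exact g.norm_coe_le_norm _)
  have hP : ∀ g y, P g y = r⁻¹ * g (ψ.symm y).1 := fun g y => rfl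
  have key : ∀ q, P (Φ (j (J (S q)))) = ΦA q := by
    intro q
    obtain ⟨f, rfl⟩ := exists_rep q
    ext y
    rw [hP, ← hT, hS, hΦA]
    have h1 : Φ (mk (S0 e f)) = (BoundedContinuousFunction.mkOfCompact (ext (S0 e f))).compContinuous
                  ⟨Subtype.val, continuous_subtype_val⟩ := by
      ext x
      rw [hΦ]
      have h2 : S0 id (S0 e f) = S0 e f := by
        apply lp.ext
        funext i
        exact S0_apply Function.injective_id (S0 e f) i
      rw [h2]
      rfl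
    rw [h1, hψ (ext (S0 e f)) (by
      intro n hn
      have h3 := ext_u (S0 e f) n
      rw [S0_apply' f (by rw [hre]; exact hn)] at h3
      exact h3) (ψ.symm y), ψ.apply_symm_apply]
    rw [← mul_assoc, inv_mul_cancel₀ hr, one_mul]
    rfl
  let R : Bone Q →L[ℝ] Q :=
    (ΦA.symm.toContinuousLinearEquiv : (KA →ᵇ ℝ) →L[ℝ] Q).comp
      (P.comp ((Φ.toContinuousLinearEquiv : Q →L[ℝ] (Rem →ᵇ ℝ)).comp
        (j.toContinuousLinearMap.comp (lift2 S))))
  apply no_retraction R
  intro q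
  show ΦA.symm (P (Φ (j (lift2 S (J q))))) = q
  rw [lift2_J, key, ΦA.symm_apply_apply]

theorem canon (hCH : Cardinal.aleph.{0} 1 = Cardinal.continuum) :
    ∃ T : (Rem →ᵇ ℝ) →ₗᵢ[ℝ] (Rem →ᵇ ℝ),
      ¬ ∃ (A : Set ℕ) (F : Set Rem) (r : ℝ), A.Infinite ∧ IsClosed F ∧ r ≠ 0 ∧
        ∃ ψ : F ≃ₜ {x : Rem | (x.1 : StoneCech ℕ) ∈
            closure ((stoneCechUnit : ℕ → StoneCech ℕ) '' A)},
          ∀ G : C(StoneCech ℕ, ℝ),
            (∀ n : ℕ, n ∉ A → G (stoneCechUnit n) = 0) →
            ∀ x : F,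
              T ((BoundedContinuousFunction.mkOfCompact G).compContinuous
                  ⟨Subtype.val, continuous_subtype_val⟩) x.1
                = r * G ((ψ x).1).1 := by
  obtain ⟨j⟩ := exists_isometry (W := Bone Q) (by rw [hCH]; exact mk_Bone_le)
  exact canon_main j

end Pool.Agent.H916R3.CH
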